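import Pool.Agent.H67.TC.Last

/-!
# MP_01ad5f_co: almost every `n` is the number of tiles of a tiling with two sizes

For all large `X`, all but at most `X ^ (1 - 1 / 5200)` of the numbers `n < X` are the exact number
of tiles of a tiling of the unit cube of `ℝ³` by cubes of at most two sizes in `(0, 1)`.

The proof. A grid of `N³` cells, `x` of whose blocks of `(l + 1)³` cells are cut into `l³` cubes
instead, gives `N³ - x (3 l² + 3 l + 1)` cubes; so every `n` that is a cube modulo
`3 l² + 3 l + 1`, with `l` small against `n`, is attained (`fit`). A lower bound sieve of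
Brun and Hooley gives many `l` for which `3 l² + 3 l + 1` has no small prime factor
(`rough_count`), and a second moment computation over these `l` shows that few `n` fail for all of
them (`bad_le`).
-/

namespace Pool.Agent.Results.MP_01ad5f_co.AlmostAll

open Pool.H67.TC

/-- For every `X ≥ X₀`, at most `X ^ (1 - 1 / 5200)` of the numbers `n < X` are not the number of
tiles of a tiling of the unit cube by cubes of at most two sizes. -/
theorem result : ∃ X₀ : ℕ, ∀ X : ℕ, X₀ ≤ X →
    ((Set.ncard {n : ℕ | n < X ∧ ¬ TwoSizeTiling n} : ℕ) : ℝ) ≤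
      (X : ℝ) ^ (1 - 1 / 5200 : ℝ) := by
  obtain ⟨X₀, h⟩ := choose_X 12 (by norm_num)
  refine ⟨X₀, fun X hX => ?_⟩
  obtain ⟨t, h12, h2, h1⟩ := h X hX
  exact last_step t h12 X h2 h1

end Pool.Agent.Results.MP_01ad5f_co.AlmostAll
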