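import Pool.Agent.H43.TT.Fin
import Pool.Agent.H43.TU.Res2

/-!
# Tilings of the unit cube by `n` cubes of two sizes: the numbers `n` for a given quotient of the sizes

`Tiles n s₁ s₂` (in `Pool/Agent/H43/TT/Def.lean`): the unit cube `[0, 1]³` is tiled by exactly `n` closed cubes, each of side
`s₁` or `s₂`, both in `(0, 1)`. `n` is a cube modulo `a³ - b³`: `a³ - b³` divides `y³ - n` for some integer `y`.

(1) If the unit cube is tiled by `n` cubes of sides `s₁`, `s₂` then `n` is a cube number or the sides are in the ratio `b : a`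
for coprime `1 ≤ b < a` with `a² ≤ n`, and `n` is a cube modulo `a³ - b³`. (2) For large `n` this is exact: a tiling with sides in the
ratio `b : a` exists if and only if `n` is a cube modulo `a³ - b³`. (3) For every `A` some residue class, with a modulus at most
`64 ^ ((A + 2) ^ 2)`, contains no `n` with a tiling in a ratio `b : a` with `a ≤ A`.
-/

set_option autoImplicit false

namespace Pool.Agent.Results.MP_01ad5f_co.FixedRatio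

open Pool.Agent.H43.TT Pool.Agent.H43.TU

theorem result :
    (∀ (n : ℕ) (s₁ s₂ : ℝ), Tiles n s₁ s₂ → (∃ N : ℕ, n = N ^ 3) ∨
      ∃ a b : ℕ, 1 ≤ b ∧ b < a ∧ a ^ 2 ≤ n ∧ Nat.Coprime a b ∧ (s₁ * a = s₂ * b ∨ s₂ * a = s₁ * b) ∧
        ∃ y : ℤ, ((a : ℤ) ^ 3 - b ^ 3) ∣ y ^ 3 - n) ∧
    (∀ a b n : ℕ, 1 ≤ b → b < a → Nat.Coprime a b → (48 * a ^ 3) ^ 3 ≤ n → (∀ N : ℕ, n ≠ N ^ 3) →
      ((∃ s₁ s₂ : ℝ, s₁ * a = s₂ * b ∧ Tiles n s₁ s₂) ↔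
        ∃ y : ℤ, ((a : ℤ) ^ 3 - b ^ 3) ∣ y ^ 3 - n)) ∧
    ∀ A : ℕ, ∃ q r : ℕ, 0 < q ∧ q ≤ 64 ^ ((A + 2) ^ 2) ∧ ∀ n : ℕ, n ≡ r [MOD q] → ∀ s₁ s₂ : ℝ, Tiles n s₁ s₂ →
      ∃ a b : ℕ, A < a ∧ 1 ≤ b ∧ b < a ∧ a ^ 2 ≤ n ∧ Nat.Coprime a b ∧
        (s₁ * a = s₂ * b ∨ s₂ * a = s₁ * b) :=
  ⟨fun _ _ _ h => nec2 h, fun _ _ _ hb hab hc hn hcube => exact_ratio hb hab hc hn hcube, classes4⟩

end Pool.Agent.Results.MP_01ad5f_co.FixedRatio
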